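import Mathlib

/-!
Triangulated compact 4-manifolds (MP_d40431_gt): finite simplicial complexes given by lists of simplices,
their geometric realizations, PL homeomorphisms, combinatorial 4-manifolds, algorithms for the promise
problem.
-/

namespace Pool.Agent.L5helper68.DH

/-- A finite simplicial complex is given by a finite list of simplices (lists of vertices). -/
abbrev Code : Type := List (List ℕ)

/-- The simplices of the complex: the nonempty sets of vertices of a listed simplex. -/
def faces (c : Code) : Set (Finset ℕ) := {s | s.Nonempty ∧ ∃ l ∈ c, ∀ v ∈ s, v ∈ l}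

/-- The link of the vertex `v`. -/
def link (F : Set (Finset ℕ)) (v : ℕ) : Set (Finset ℕ) := {s | s.Nonempty ∧ v ∉ s ∧ insert v s ∈ F}

/-- the point of the vertex `v` -/
def vert (v : ℕ) : ℕ → ℝ := Pi.single v 1

/-- The geometric realization: the union of the simplices, in `ℕ → ℝ` with the product topology. -/
def real (F : Set (Finset ℕ)) : Set (ℕ → ℝ) := ⋃ s ∈ F, convexHull ℝ (vert '' (s : Set ℕ))

/-- The homeomorphism `e : P ≃ₜ Q` is piecewise linear: `P` is a finite union of polytopes (convex hulls of
finite sets) on each of which `e` is the restriction of an affine map. -/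
def IsPL {P Q : Set (ℕ → ℝ)} (e : P ≃ₜ Q) : Prop :=
  ∃ T : Set (Set (ℕ → ℝ)), T.Finite ∧ (∀ t ∈ T, t.Finite) ∧ P = ⋃ t ∈ T, convexHull ℝ t ∧
    ∀ t ∈ T, ∃ a : (ℕ → ℝ) →ᵃ[ℝ] (ℕ → ℝ), ∀ x : P, (x : ℕ → ℝ) ∈ convexHull ℝ t →
      (e x : ℕ → ℝ) = a x

/-- There is a piecewise linear homeomorphism `P ≃ₜ Q`. -/
def PLHomeo (P Q : Set (ℕ → ℝ)) : Prop := ∃ e : P ≃ₜ Q, IsPL e ∧ IsPL e.symm

/-- `P` is a PL 3-sphere: PL homeomorphic to the boundary of a 4-simplex. -/
def IsSphere (P : Set (ℕ → ℝ)) : Prop :=
  PLHomeo P (real {s | s.Nonempty ∧ s ⊂ Finset.range 5})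

/-- `P` is a PL 3-ball: PL homeomorphic to a 3-simplex. -/
def IsBall (P : Set (ℕ → ℝ)) : Prop :=
  PLHomeo P (real {s | s.Nonempty ∧ s ⊆ Finset.range 4})

/-- The complex is a combinatorial 4-manifold (with or without boundary, not necessarily connected): the
link of every vertex is a PL 3-sphere or a PL 3-ball. -/
def IsManifold (F : Set (Finset ℕ)) : Prop :=
  ∀ v : ℕ, {v} ∈ F → IsSphere (real (link F v)) ∨ IsBall (real (link F v))

/-- The two complexes are homeomorphic. -/
def Homeomorphic (c d : Code) : Prop := Nonempty (real (faces c) ≃ₜ real (faces d))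

/-- The two complexes are PL homeomorphic; for combinatorial 4-manifolds this is the same as
diffeomorphic. -/
def Diffeomorphic (c d : Code) : Prop := PLHomeo (real (faces c)) (real (faces d))

/-- The admissible inputs: two combinatorial 4-manifolds that are homeomorphic. -/
def Admissible (c d : Code) : Prop :=
  IsManifold (faces c) ∧ IsManifold (faces d) ∧ Homeomorphic c d

/-- The algorithm `f` solves the problem: on every admissible input it halts and answers correctly
whether the two manifolds are diffeomorphic. -/
def Solves (f : Code × Code →. Bool) : Prop :=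
  Partrec f ∧ ∀ c d : Code, Admissible c d →
    (Diffeomorphic c d → true ∈ f (c, d)) ∧ (¬ Diffeomorphic c d → false ∈ f (c, d))

/-- Computable sequences of connected 4-manifolds `Y n` with twins `Y' n`: homeomorphic, but not
diffeomorphic. -/
structure Twins (Y Y' : ℕ → Code) : Prop where
  comp : Computable Y
  comp' : Computable Y'
  mfd : ∀ n, IsManifold (faces (Y n))
  mfd' : ∀ n, IsManifold (faces (Y' n))
  conn : ∀ n, IsConnected (real (faces (Y n)))
  conn' : ∀ n, IsConnected (real (faces (Y' n)))
  homeo : ∀ n, Homeomorphic (Y n) (Y' n)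
  exotic : ∀ n, ¬ Diffeomorphic (Y n) (Y' n)

/-- relabelling of the vertices -/
def rel (ι : ℕ → ℕ) (c : Code) : Code := c.map (List.map ι)

/-- The disjoint union: the vertices of the first complex become even, those of the second odd. -/
def sum (c d : Code) : Code := rel (fun v => 2 * v) c ++ rel (fun v => 2 * v + 1) d

end Pool.Agent.L5helper68.DH
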