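import Pool.Agent.L5helper68.DH.Defs

/-! Project DH (helper68), J9: disjoint unions of codes are computable. -/

set_option autoImplicit false

namespace Pool.Agent.L5helper68.DH

theorem primrec_rel {ι : ℕ → ℕ} (hι : Primrec ι) : Primrec (rel ι) := by
  have h1 : Primrec (fun l : List ℕ => l.map ι) := by
    have : Primrec₂ (fun (_ : List ℕ) (v : ℕ) => ι v) := hι.comp Primrec.snd
    exact Primrec.list_map Primrec.id this
  have h2 : Primrec₂ (fun (_ : Code) (l : List ℕ) => l.map ι) := h1.comp Primrec.snd
  exact Primrec.list_map Primrec.id h2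

theorem primrec_sum : Primrec (fun p : Code × Code => sum p.1 p.2) := by
  have e1 : Primrec (fun v : ℕ => 2 * v) := Primrec.nat_mul.comp (Primrec.const 2) Primrec.id
  have e2 : Primrec (fun v : ℕ => 2 * v + 1) := Primrec.succ.comp e1
  have h1 : Primrec (fun p : Code × Code => rel (fun v => 2 * v) p.1) := (primrec_rel e1).comp Primrec.fst
  have h2 : Primrec (fun p : Code × Code => rel (fun v => 2 * v + 1) p.2) :=
    (primrec_rel e2).comp Primrec.snd
  exact Primrec.list_append.comp h1 h2

/-- J9: disjoint unions are computable -/
theorem computable_sum : Computable (fun p : Code × Code => sum p.1 p.2) := primrec_sum.to_comp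

end Pool.Agent.L5helper68.DH
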