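import Pool.Agent.L5helper68.DH.Lab

namespace Pool.Agent.L5helper68.DH

open Set

theorem relab_vert (ι : ℕ → ℕ) (hι : Function.Injective ι) (v : ℕ) :
    relab ι hι (vert v) = vert (ι v) := by
  funext w
  by_cases hw : ∃ u, ι u = w
  · obtain ⟨u, rfl⟩ := hw
    have h1 : relab ι hι (vert v) (ι u) = vert v u := hι.extend_apply (vert v) 0 u
    rw [h1]
    by_cases huv : u = v
    · subst huv
      simp [vert]
    · have : ι u ≠ ι v := fun h => huv (hι h)
      simp [vert, huv, this]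
  · have h1 : relab ι hι (vert v) w = 0 := Function.extend_apply' _ _ _ hw
    rw [h1]
    have : w ≠ ι v := fun h => hw ⟨v, h.symm⟩
    simp [vert, this]

/-- J6: relabelling -/
theorem real_map (ι : ℕ → ℕ) (hι : Function.Injective ι) (F : Set (Finset ℕ)) :
    real (Finset.map ⟨ι, hι⟩ '' F) = relab ι hι '' real F := by
  unfold real
  rw [Set.image_iUnion₂, Set.biUnion_image]
  refine Set.iUnion₂_congr fun s _ => ?_
  have h := (relab ι hι).toLinearMap.image_convexHull (vert '' (s : Set ℕ))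
  have h2 : (relab ι hι).toLinearMap '' (vert '' (s : Set ℕ)) =
      vert '' ((Finset.map ⟨ι, hι⟩ s : Finset ℕ) : Set ℕ) := by
    rw [Finset.coe_map, Set.image_image, Set.image_image]
    refine Set.image_congr fun v _ => ?_
    exact relab_vert ι hι v
  rw [h2] at h
  exact h.symm

/-- J6 -/
theorem faces_rel (ι : ℕ → ℕ) (hι : Function.Injective ι) (c : Code) :
    faces (rel ι c) = Finset.map ⟨ι, hι⟩ '' faces c := by
  ext s
  constructor
  · rintro ⟨hs, l', hl', h⟩
    obtain ⟨l, hl, rfl⟩ := List.mem_map.1 hl'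
    have h' : ∀ v ∈ s, ∃ u ∈ l, ι u = v := fun v hv => List.mem_map.1 (h v hv)
    refine ⟨s.preimage ι hι.injOn, ⟨?_, l, hl, ?_⟩, ?_⟩
    · obtain ⟨v, hv⟩ := hs
      obtain ⟨u, _, rfl⟩ := h' v hv
      exact ⟨u, Finset.mem_preimage.2 hv⟩
    · intro u hu
      obtain ⟨u', hu', he⟩ := h' _ (Finset.mem_preimage.1 hu)
      rwa [← hι he]
    · ext v
      simp only [Finset.mem_map, Finset.mem_preimage, Function.Embedding.coeFn_mk]
      constructor
      · rintro ⟨u, hu, rfl⟩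
        exact hu
      · intro hv
        obtain ⟨u, _, rfl⟩ := h' v hv
        exact ⟨u, hv, rfl⟩
  · rintro ⟨t, ⟨ht, l, hl, h⟩, rfl⟩
    refine ⟨ht.map, l.map ι, List.mem_map.2 ⟨l, hl, rfl⟩, ?_⟩
    intro v hv
    obtain ⟨u, hu, rfl⟩ := Finset.mem_map.1 hv
    exact List.mem_map.2 ⟨u, h u hu, rfl⟩

/-- J6 -/
theorem link_map (ι : ℕ → ℕ) (hι : Function.Injective ι) (F : Set (Finset ℕ)) (v : ℕ) :
    link (Finset.map ⟨ι, hι⟩ '' F) (ι v) = Finset.map ⟨ι, hι⟩ '' link F v := by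
  ext s
  constructor
  · rintro ⟨hs, hv, t, ht, he⟩
    have hvt : v ∈ t := by
      have : ι v ∈ Finset.map ⟨ι, hι⟩ t := by rw [he]; exact Finset.mem_insert_self _ _
      obtain ⟨u, hu, hu'⟩ := Finset.mem_map.1 this
      rwa [← hι hu']
    have hst : s = Finset.map ⟨ι, hι⟩ (t.erase v) := by
      rw [Finset.map_erase, he]
      simp [Finset.erase_insert hv]
    refine ⟨t.erase v, ⟨?_, Finset.notMem_erase v t, ?_⟩, hst.symm⟩
    · rw [hst] at hs
      exact Finset.map_nonempty.1 hs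
    · rwa [Finset.insert_erase hvt]
  · rintro ⟨t, ⟨ht, hv, hF⟩, rfl⟩
    refine ⟨ht.map, ?_, insert v t, hF, ?_⟩
    · intro h
      obtain ⟨u, hu, hu'⟩ := Finset.mem_map.1 h
      exact hv (by rwa [← hι hu'])
    · rw [Finset.map_insert]
      rfl

end Pool.Agent.L5helper68.DH
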