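import Pool.Agent.L5helper68.DH.Defs

/-!
# Restriction of PL homeomorphisms (helper79, job DH J4)
-/

set_option autoImplicit false

namespace Pool.Agent.L5helper68.DH

open Set

theorem isPL_restrict79 {A B Q C : Set (ℕ → ℝ)} (hA : IsClosed A) (hB : IsClosed B)
    (hAB : Disjoint A B) (f : (A ∪ B : Set (ℕ → ℝ)) ≃ₜ Q) (hf : IsPL f) (e : A ≃ₜ C)
    (he : ∀ (x : ℕ → ℝ) (hx : x ∈ A), (e ⟨x, hx⟩ : ℕ → ℝ) = f ⟨x, Or.inl hx⟩) : IsPL e := by
  obtain ⟨T, hT, hTf, hU, haff⟩ := hf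
  refine ⟨{t ∈ T | convexHull ℝ t ⊆ A}, hT.subset (fun t ht => ht.1), fun t ht => hTf t ht.1,
    ?_, ?_⟩
  · apply Set.Subset.antisymm
    · intro x hx
      have hxU : x ∈ ⋃ t ∈ T, convexHull ℝ t := hU ▸ Or.inl hx
      simp only [mem_iUnion] at hxU ⊢
      obtain ⟨t, ht, hxt⟩ := hxU
      refine ⟨t, ⟨ht, fun y hy => ?_⟩, hxt⟩
      have hsub : convexHull ℝ t ⊆ A ∪ B := by
        rw [hU]
        exact fun z hz => mem_iUnion₂.2 ⟨t, ht, hz⟩
      by_contra hyA
      have hyB : y ∈ B := (hsub hy).resolve_left hyA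
      have hpre : IsPreconnected (convexHull ℝ t) := (convex_convexHull ℝ t).isPreconnected
      obtain ⟨z, _, hz⟩ := (isPreconnected_closed_iff.1 hpre) A B hA hB hsub ⟨x, hxt, hx⟩
        ⟨y, hy, hyB⟩
      exact hAB.le_bot hz
    · exact iUnion₂_subset fun t ht => ht.2
  · intro t ht
    obtain ⟨a, ha⟩ := haff t ht.1
    refine ⟨a, fun x hx => ?_⟩
    rw [he x x.2]
    exact ha ⟨x, Or.inl x.2⟩ hx

theorem plHomeo_restrict {A B C D : Set (ℕ → ℝ)} (hA : IsClosed A) (hB : IsClosed B)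
    (hC : IsClosed C) (hD : IsClosed D) (hAB : Disjoint A B) (hCD : Disjoint C D)
    (f : (A ∪ B : Set (ℕ → ℝ)) ≃ₜ (C ∪ D : Set (ℕ → ℝ))) (h1 : IsPL f) (h2 : IsPL f.symm)
    (h : ∀ x : (A ∪ B : Set (ℕ → ℝ)), (x : ℕ → ℝ) ∈ A ↔ (f x : ℕ → ℝ) ∈ C) : PLHomeo A C := by
  have h' : ∀ y : (C ∪ D : Set (ℕ → ℝ)), (y : ℕ → ℝ) ∈ C → (f.symm y : ℕ → ℝ) ∈ A := by
    intro y hy
    rw [h, f.apply_symm_apply]
    exact hy
  let e : A ≃ₜ C :=
    { toFun := fun x => ⟨f ⟨x, Or.inl x.2⟩, (h _).1 x.2⟩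
      invFun := fun y => ⟨f.symm ⟨y, Or.inl y.2⟩, h' _ y.2⟩
      left_inv := fun x => by
        apply Subtype.ext
        simp
      right_inv := fun y => by
        apply Subtype.ext
        simp
      continuous_toFun := by
        refine Continuous.subtype_mk ?_ _
        exact continuous_subtype_val.comp (f.continuous.comp
          (Continuous.subtype_mk continuous_subtype_val _))
      continuous_invFun := by
        refine Continuous.subtype_mk ?_ _
        exact continuous_subtype_val.comp (f.symm.continuous.comp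
          (Continuous.subtype_mk continuous_subtype_val _)) }
  exact ⟨e, isPL_restrict79 hA hB hAB f h1 e fun x hx => rfl,
    isPL_restrict79 hC hD hCD f.symm h2 e.symm fun x hx => rfl⟩

end Pool.Agent.L5helper68.DH
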