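import Pool.Agent.L5helper68.DH.Lin
import Pool.Agent.L5helper68.DH.Glue
import Pool.Agent.L5helper68.DH.Union
import Pool.Agent.L5helper68.DH.Restrict
import Pool.Agent.L5helper68.DH.Parts
import Pool.Agent.L5helper68.DH.Rel
import Pool.Agent.L5helper68.DH.Real
import Pool.Agent.L5helper68.DH.Mfd
import Pool.Agent.L5helper68.DH.Comp

/-!
Disjoint unions of piecewise linear homeomorphisms and of manifolds.
-/

namespace Pool.Agent.L5helper68.DH

theorem plHomeo_union {A B C D : Set (ℕ → ℝ)} (hA : IsClosed A) (hB : IsClosed B) (hC : IsClosed C)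
    (hD : IsClosed D) (hAB : Disjoint A B) (hCD : Disjoint C D) (h : PLHomeo A C)
    (h' : PLHomeo B D) : PLHomeo (A ∪ B) (C ∪ D) :=
  plHomeo_union_of (fun a b c d e f g h => homeo_union a b c d e f g h) hA hB hC hD hAB hCD h h'

/-- PL homeomorphisms between disjoint unions of two connected sets -/
theorem plHomeo_parts {A B C D : Set (ℕ → ℝ)} (hA : IsClosed A) (hB : IsClosed B) (hC : IsClosed C)
    (hD : IsClosed D) (hAB : Disjoint A B) (hCD : Disjoint C D) (cA : IsConnected A)
    (cB : IsConnected B) (cC : IsConnected C) (cD : IsConnected D)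
    (h : PLHomeo (A ∪ B) (C ∪ D)) :
    (PLHomeo A C ∧ PLHomeo B D) ∨ (PLHomeo A D ∧ PLHomeo B C) :=
  plHomeo_parts_of (fun hA hB hC hD hAB hCD f h1 h2 h =>
    plHomeo_restrict hA hB hC hD hAB hCD f h1 h2 h) hA hB hC hD hAB hCD cA cB cC cD h

/-- the disjoint union of two manifolds is a manifold -/
theorem isManifold_sum {c d : Code} (hc : IsManifold (faces c)) (hd : IsManifold (faces d)) :
    IsManifold (faces (sum c d)) :=
  J8.isManifold_sum_of (fun E R hR h => plHomeo_image E R hR h) real_map faces_rel link_map hc hd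

end Pool.Agent.L5helper68.DH
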