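import Pool.Agent.L5helper68.DH.SumCl

namespace Pool.Agent.L5helper68.DH

/-- Computable families of connected 4-manifolds `Y n`, `Y' n`, with `Y n` homeomorphic to `Y' n`. -/
structure Pairs {α : Type} [Primcodable α] (Y Y' : α → Code) : Prop where
  comp : Computable Y
  comp' : Computable Y'
  mfd : ∀ n, IsManifold (faces (Y n))
  mfd' : ∀ n, IsManifold (faces (Y' n))
  conn : ∀ n, IsConnected (real (faces (Y n)))
  conn' : ∀ n, IsConnected (real (faces (Y' n)))
  homeo : ∀ n, Homeomorphic (Y n) (Y' n)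

variable {α : Type} [Primcodable α]

theorem homeomorphic_symm {c d : Code} (h : Homeomorphic c d) : Homeomorphic d c :=
  h.map Homeomorph.symm

theorem diffeomorphic_symm {c d : Code} (h : Diffeomorphic c d) : Diffeomorphic d c := plHomeo_symm h

/-- an algorithm decides on computable families of admissible inputs -/
theorem decide_family {f : Code × Code →. Bool} (hf : Solves f) {β : Type} [Primcodable β]
    {A B : β → Code} (hA : Computable A) (hB : Computable B) (h : ∀ x, Admissible (A x) (B x)) :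
    ComputablePred (fun x => Diffeomorphic (A x) (B x)) := by
  classical
  obtain ⟨hp, hs⟩ := hf
  have h1 : Partrec fun x => f (A x, B x) := hp.comp (hA.pair hB)
  refine ⟨fun x => Classical.dec _, ?_⟩
  have h2 : Partrec (fun x => (Part.some (@decide (Diffeomorphic (A x) (B x)) (Classical.dec _)))) := by
    refine h1.of_eq fun x => ?_
    obtain ⟨h3, h4⟩ := hs (A x) (B x) (h x)
    by_cases hx : Diffeomorphic (A x) (B x)
    · have := h3 hx
      rw [Part.eq_some_iff.2 this]
      simp [hx]
    · have := h4 hx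
      rw [Part.eq_some_iff.2 this]
      simp [hx]
  exact h2

theorem decide_pairs {f : Code × Code →. Bool} (hf : Solves f) {Y Y' : α → Code}
    (hY : Pairs Y Y') : ComputablePred (fun n : α => Diffeomorphic (Y n) (Y' n)) :=
  decide_family hf hY.comp hY.comp' fun n => ⟨hY.mfd n, hY.mfd' n, hY.homeo n⟩

theorem decide_sums {f : Code × Code →. Bool} (hf : Solves f) {Y Y' : α → Code}
    (hY : Pairs Y Y') : ComputablePred (fun p : α × α =>
      (Diffeomorphic (Y p.1) (Y' p.1) ∧ Diffeomorphic (Y p.2) (Y' p.2)) ∨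
      (Diffeomorphic (Y p.1) (Y p.2) ∧ Diffeomorphic (Y' p.1) (Y' p.2))) := by
  have h1 : Computable fun p : α × α => sum (Y p.1) (Y' p.2) :=
    computable_sum.comp ((hY.comp.comp Computable.fst).pair (hY.comp'.comp Computable.snd))
  have h2 : Computable fun p : α × α => sum (Y' p.1) (Y p.2) :=
    computable_sum.comp ((hY.comp'.comp Computable.fst).pair (hY.comp.comp Computable.snd))
  have h3 := decide_family hf h1 h2 fun p =>
    ⟨isManifold_sum (hY.mfd _) (hY.mfd' _), isManifold_sum (hY.mfd' _) (hY.mfd _),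
      homeo_sum (hY.homeo _) (homeomorphic_symm (hY.homeo _))⟩
  refine h3.of_eq fun p => ?_
  rw [diffeo_sum (hY.conn _) (hY.conn' _) (hY.conn' _) (hY.conn _)]
  constructor
  · rintro (⟨h, h'⟩ | ⟨h, h'⟩)
    · exact Or.inl ⟨h, diffeomorphic_symm h'⟩
    · exact Or.inr ⟨h, diffeomorphic_symm h'⟩
  · rintro (⟨h, h'⟩ | ⟨h, h'⟩)
    · exact Or.inl ⟨h, diffeomorphic_symm h'⟩
    · exact Or.inr ⟨h, diffeomorphic_symm h'⟩

/-- the set of the pairs with an exotic member on which the relation is decided -/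
theorem decide_exotic {f : Code × Code →. Bool} (hf : Solves f) {Y Y' : α → Code}
    (hY : Pairs Y Y') : ComputablePred (fun p : α × α =>
      ¬ Diffeomorphic (Y p.1) (Y' p.1) ∧
      Diffeomorphic (Y p.1) (Y p.2) ∧ Diffeomorphic (Y' p.1) (Y' p.2)) := by
  classical
  obtain ⟨d1, h1⟩ := decide_pairs hf hY
  obtain ⟨d2, h2⟩ := decide_sums hf hY
  refine ⟨fun x => Classical.dec _, ?_⟩
  have h3 : Computable fun p : α × α =>
      (!(@decide _ (d1 p.1))) && @decide _ (d2 p) :=
    (Primrec.and.to_comp).comp ((Primrec.not.to_comp).comp (h1.comp Computable.fst)) h2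
  refine h3.of_eq fun p => ?_
  by_cases hx : Diffeomorphic (Y p.1) (Y' p.1)
  · simp [hx]
  · simp [hx]

/-- recognition of `Y n₀` in the family, if `Y n₀` is not diffeomorphic to its partner -/
theorem decide_base {f : Code × Code →. Bool} (hf : Solves f) {Y Y' : α → Code}
    (hY : Pairs Y Y') (n₀ : α) (h0 : ¬ Diffeomorphic (Y n₀) (Y' n₀)) :
    ComputablePred (fun n : α => Diffeomorphic (Y n) (Y n₀) ∧ Diffeomorphic (Y' n) (Y' n₀)) := by
  have h1 : Computable fun n : α => sum (Y n) (Y' n₀) :=
    computable_sum.comp (hY.comp.pair (Computable.const _))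
  have h2 : Computable fun n : α => sum (Y' n) (Y n₀) :=
    computable_sum.comp (hY.comp'.pair (Computable.const _))
  have h3 := decide_family hf h1 h2 fun n =>
    ⟨isManifold_sum (hY.mfd _) (hY.mfd' _), isManifold_sum (hY.mfd' _) (hY.mfd _),
      homeo_sum (hY.homeo _) (homeomorphic_symm (hY.homeo _))⟩
  refine h3.of_eq fun n => ?_
  rw [diffeo_sum (hY.conn _) (hY.conn' _) (hY.conn' _) (hY.conn _)]
  constructor
  · rintro (⟨_, h'⟩ | ⟨h, h'⟩)
    · exact absurd (diffeomorphic_symm h') h0
    · exact ⟨h, diffeomorphic_symm h'⟩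
  · rintro ⟨h, h'⟩
    exact Or.inr ⟨h, diffeomorphic_symm h'⟩

/-- the negative answer from a family with an undecidable recognition problem -/
theorem no_algorithm {Y Y' : α → Code} (hY : Pairs Y Y') (n₀ : α)
    (h0 : ¬ Diffeomorphic (Y n₀) (Y' n₀))
    (hc : ∀ n, Diffeomorphic (Y n) (Y n₀) → Diffeomorphic (Y' n) (Y' n₀))
    (hu : ¬ ComputablePred (fun n : α => Diffeomorphic (Y n) (Y n₀)))
    (f : Code × Code →. Bool) : ¬ Solves f := fun hf =>
  hu ((decide_base hf hY n₀ h0).of_eq fun _ => ⟨fun h => h.1, fun h => ⟨h, hc _ h⟩⟩)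

end Pool.Agent.L5helper68.DH
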