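import Pool.Agent.L5helper68.DH.Defs

namespace Pool.Agent.L5helper68.DH

/-- the linear map that relabels the vertices -/
noncomputable def relab (ι : ℕ → ℕ) (hι : Function.Injective ι) : (ℕ → ℝ) →L[ℝ] (ℕ → ℝ) :=
  { toFun := fun x => Function.extend ι x 0
    map_add' := fun x y => by
      funext w
      by_cases hw : ∃ v, ι v = w
      · obtain ⟨v, rfl⟩ := hw
        simp [hι.extend_apply]
      · simp [Function.extend_apply' _ _ _ hw]
    map_smul' := fun a x => by
      funext w
      by_cases hw : ∃ v, ι v = w
      · obtain ⟨v, rfl⟩ := hw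
        simp [hι.extend_apply]
      · simp [Function.extend_apply' _ _ _ hw]
    cont := by
      refine continuous_pi fun w => ?_
      by_cases hw : ∃ v, ι v = w
      · obtain ⟨v, rfl⟩ := hw
        simpa [hι.extend_apply] using continuous_apply v
      · simpa [Function.extend_apply' _ _ _ hw] using continuous_const }

/-- the inverse linear map -/
noncomputable def unlab (ι : ℕ → ℕ) : (ℕ → ℝ) →L[ℝ] (ℕ → ℝ) :=
  ContinuousLinearMap.pi fun v => ContinuousLinearMap.proj (ι v)

theorem unlab_relab (ι : ℕ → ℕ) (hι : Function.Injective ι) (x : ℕ → ℝ) :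
    unlab ι (relab ι hι x) = x := by
  funext v
  exact hι.extend_apply x 0 v

end Pool.Agent.L5helper68.DH
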