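import Pool.Agent.L5helper68.DH.Defs

/-!
PL homeomorphisms and linear images (J1 of helper68's project DH)
-/

set_option autoImplicit false

namespace Pool.Agent.L5helper68.DH

open Set

/-- J1 -/
theorem plHomeo_symm {P Q : Set (ℕ → ℝ)} (h : PLHomeo P Q) : PLHomeo Q P := by
  obtain ⟨e, h1, h2⟩ := h
  exact ⟨e.symm, h2, by simpa using h1⟩

/-- the homeomorphism of `E '' P` onto `P` -/
noncomputable def plHomeo_image_map {P : Set (ℕ → ℝ)} (E R : (ℕ → ℝ) →L[ℝ] (ℕ → ℝ))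
    (hR : ∀ x ∈ P, R (E x) = x) : (E '' P : Set (ℕ → ℝ)) ≃ₜ P where
  toFun y := ⟨R y, by
    obtain ⟨x, hx, hy⟩ := y.2
    rw [← hy, hR x hx]
    exact hx⟩
  invFun x := ⟨E x, mem_image_of_mem _ x.2⟩
  left_inv y := by
    obtain ⟨x, hx, hy⟩ := y.2
    refine Subtype.ext ?_
    show E (R y) = y
    rw [← hy, hR x hx]
  right_inv x := Subtype.ext (hR x x.2)
  continuous_toFun := by
    refine Continuous.subtype_mk ?_ _
    exact R.continuous.comp continuous_subtype_val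
  continuous_invFun := by
    refine Continuous.subtype_mk ?_ _
    exact E.continuous.comp continuous_subtype_val

/-- J1: images under linear maps that are injective on `P` -/
theorem plHomeo_image {P Q : Set (ℕ → ℝ)} (E R : (ℕ → ℝ) →L[ℝ] (ℕ → ℝ))
    (hR : ∀ x ∈ P, R (E x) = x) (h : PLHomeo P Q) : PLHomeo (E '' P) Q := by
  obtain ⟨e, ⟨T, hT, hTf, hP, hTa⟩, ⟨T2, hT2, hTf2, hQ, hTa2⟩⟩ := h
  have hconv : ∀ t : Set (ℕ → ℝ), convexHull ℝ (E '' t) = E '' convexHull ℝ t := fun t =>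
    (LinearMap.image_convexHull (E : (ℕ → ℝ) →ₗ[ℝ] (ℕ → ℝ)) t).symm
  refine ⟨(plHomeo_image_map E R hR).trans e, ?_, ?_⟩
  · refine ⟨(fun t => E '' t) '' T, hT.image _, ?_, ?_, ?_⟩
    · rintro _ ⟨t, ht, rfl⟩
      exact (hTf t ht).image _
    · conv_lhs => rw [hP]
      rw [biUnion_image, image_iUnion₂]
      exact iUnion₂_congr fun t _ => (hconv t).symm
    · rintro _ ⟨t, ht, rfl⟩
      obtain ⟨a, ha⟩ := hTa t ht
      refine ⟨a.comp (R : (ℕ → ℝ) →ₗ[ℝ] (ℕ → ℝ)).toAffineMap, fun y hy => ?_⟩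
      have hy' : (y : ℕ → ℝ) ∈ convexHull ℝ (E '' t) := hy
      rw [hconv t] at hy'
      obtain ⟨z, hz, hzy⟩ := hy'
      have hzP : z ∈ P := by
        rw [hP]
        exact mem_iUnion₂_of_mem ht hz
      have hRy : R (y : ℕ → ℝ) = z := by rw [← hzy, hR z hzP]
      have h1 := ha (plHomeo_image_map E R hR y) (by
        show R (y : ℕ → ℝ) ∈ convexHull ℝ t
        rw [hRy]
        exact hz)
      exact h1
  · refine ⟨T2, hT2, hTf2, hQ, fun t ht => ?_⟩
    obtain ⟨a, ha⟩ := hTa2 t ht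
    refine ⟨((E : (ℕ → ℝ) →ₗ[ℝ] (ℕ → ℝ)).toAffineMap).comp a, fun q hq => ?_⟩
    have h1 := ha q hq
    show E ((e.symm q : P) : ℕ → ℝ) = E (a q)
    rw [h1]

end Pool.Agent.L5helper68.DH
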