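import Pool.Agent.L5helper68.DH.SumCl

/-!
Algorithms that solve the problem for the inputs in a class of complexes, and promise problems.
-/

namespace Pool.Agent.L5helper68.DH

/-- `R` is decidable on `D` (a promise problem): some partial recursive function halts on every element of
`D` and tells whether it has the property `R`. If `D` is everything, `R` is decidable. -/
def DecidableOn {β : Type} [Primcodable β] (D : Set β) (R : β → Prop) : Prop :=
  ∃ g : β →. Bool, Partrec g ∧ ∀ x ∈ D, (R x → true ∈ g x) ∧ (¬ R x → false ∈ g x)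

/-- The question has a positive answer for inputs in the class `P`: some algorithm tells whether two
homeomorphic 4-manifolds in `P` are diffeomorphic. If `P` is the class of all complexes, this is the question. -/
def Q1On (P : Code → Prop) : Prop :=
  DecidableOn {p : Code × Code | P p.1 ∧ P p.2 ∧ Admissible p.1 p.2}
    (fun p => Diffeomorphic p.1 p.2)

/-- `Y` and `Y'` are computable, for `n` in `D` the complexes `Y n`, `Y' n` are homeomorphic connected
4-manifolds, and these manifolds and the disjoint unions `Y m + Y' n`, `Y' m + Y n` are in the class `P`. -/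
structure TwinsOn {α : Type} [Primcodable α] (P : Code → Prop) (D : Set α) (Y Y' : α → Code) :
    Prop where
  comp : Computable Y
  comp' : Computable Y'
  mfd : ∀ n ∈ D, IsManifold (faces (Y n))
  mfd' : ∀ n ∈ D, IsManifold (faces (Y' n))
  conn : ∀ n ∈ D, IsConnected (real (faces (Y n)))
  conn' : ∀ n ∈ D, IsConnected (real (faces (Y' n)))
  homeo : ∀ n ∈ D, Homeomorphic (Y n) (Y' n)
  mem : ∀ n ∈ D, P (Y n)
  mem' : ∀ n ∈ D, P (Y' n)
  union : ∀ m ∈ D, ∀ n ∈ D, P (sum (Y m) (Y' n))
  union' : ∀ m ∈ D, ∀ n ∈ D, P (sum (Y' m) (Y n))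

theorem homeo_symm' {c d : Code} (h : Homeomorphic c d) : Homeomorphic d c :=
  h.map Homeomorph.symm

theorem diffeo_symm' {c d : Code} (h : Diffeomorphic c d) : Diffeomorphic d c := plHomeo_symm h

variable {α : Type} [Primcodable α] {P : Code → Prop} {D : Set α}

theorem DecidableOn.congr {β : Type} [Primcodable β] {D : Set β} {R S : β → Prop}
    (h : DecidableOn D R) (hRS : ∀ x ∈ D, (R x ↔ S x)) : DecidableOn D S := by
  obtain ⟨g, hg, h1⟩ := h
  exact ⟨g, hg, fun x hx => ⟨fun hs => (h1 x hx).1 ((hRS x hx).2 hs),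
    fun hs => (h1 x hx).2 fun hr => hs ((hRS x hx).1 hr)⟩⟩

/-- computable substitution -/
theorem DecidableOn.subst {β γ : Type} [Primcodable β] [Primcodable γ] {E : Set γ} {R : γ → Prop}
    (h : DecidableOn E R) {D : Set β} {A : β → γ} (hA : Computable A) (hD : ∀ x ∈ D, A x ∈ E) :
    DecidableOn D (fun x => R (A x)) := by
  obtain ⟨g, hg, h1⟩ := h
  exact ⟨fun x => g (A x), hg.comp hA, fun x hx => h1 (A x) (hD x hx)⟩

/-- `¬ R ∧ S` -/
theorem DecidableOn.not_and {β : Type} [Primcodable β] {D : Set β} {R S : β → Prop}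
    (h : DecidableOn D R) (h' : DecidableOn D S) : DecidableOn D (fun x => ¬ R x ∧ S x) := by
  obtain ⟨g, hg, h1⟩ := h
  obtain ⟨g', hg', h1'⟩ := h'
  have hb : Computable₂ fun a b : Bool => (!a) && b :=
    ((Primrec.and.to_comp).comp ((Primrec.not.to_comp).comp Computable.fst) Computable.snd).to₂
  refine ⟨fun x => (g x).bind fun a => (g' x).map fun b => (!a) && b, ?_, ?_⟩
  · have h3 : Computable₂ fun (p : β × Bool) (b : Bool) => (!p.2) && b :=
      (hb.comp (Computable.snd.comp Computable.fst) Computable.snd).to₂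
    have h4 : Partrec fun p : β × Bool => g' p.1 := hg'.comp Computable.fst
    have h5 : Partrec₂ fun (x : β) (a : Bool) => (g' x).map fun b => (!a) && b := h4.map h3
    exact hg.bind h5
  · intro x hx
    have key : ∀ a b : Bool, a ∈ g x → b ∈ g' x →
        ((!a) && b) ∈ (g x).bind fun a => (g' x).map fun b => (!a) && b := fun a b ha hb =>
      Part.mem_bind ha (Part.mem_map _ hb)
    constructor
    · rintro ⟨hr, hs⟩
      exact key false true ((h1 x hx).2 hr) ((h1' x hx).1 hs)
    · intro hn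
      by_cases hr : R x
      · by_cases hs : S x
        · exact key true true ((h1 x hx).1 hr) ((h1' x hx).1 hs)
        · exact key true false ((h1 x hx).1 hr) ((h1' x hx).2 hs)
      · have hs : ¬ S x := fun hs => hn ⟨hr, hs⟩
        exact key false false ((h1 x hx).2 hr) ((h1' x hx).2 hs)

/-- an algorithm decides on computable families of admissible inputs -/
theorem on_family (hf : Q1On P) {β : Type} [Primcodable β] {D : Set β}
    {A B : β → Code} (hA : Computable A) (hB : Computable B)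
    (h : ∀ x ∈ D, P (A x) ∧ P (B x) ∧ Admissible (A x) (B x)) :
    DecidableOn D (fun x => Diffeomorphic (A x) (B x)) :=
  DecidableOn.subst (A := fun x => (A x, B x)) hf (hA.pair hB) h

theorem on_pairs (hf : Q1On P) {Y Y' : α → Code} (hY : TwinsOn P D Y Y') :
    DecidableOn D (fun n : α => Diffeomorphic (Y n) (Y' n)) :=
  on_family hf hY.comp hY.comp' fun n hn =>
    ⟨hY.mem n hn, hY.mem' n hn, hY.mfd n hn, hY.mfd' n hn, hY.homeo n hn⟩

theorem adm_sum {Y Y' : α → Code} (hY : TwinsOn P D Y Y') {m n : α} (hm : m ∈ D) (hn : n ∈ D) :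
    P (sum (Y m) (Y' n)) ∧ P (sum (Y' m) (Y n)) ∧
      Admissible (sum (Y m) (Y' n)) (sum (Y' m) (Y n)) :=
  ⟨hY.union m hm n hn, hY.union' m hm n hn,
    isManifold_sum (hY.mfd m hm) (hY.mfd' n hn), isManifold_sum (hY.mfd' m hm) (hY.mfd n hn),
      homeo_sum (hY.homeo m hm) (homeo_symm' (hY.homeo n hn))⟩

theorem diffeo_iff {Y Y' : α → Code} (hY : TwinsOn P D Y Y') {m n : α} (hm : m ∈ D) (hn : n ∈ D) :
    Diffeomorphic (sum (Y m) (Y' n)) (sum (Y' m) (Y n)) ↔
      (Diffeomorphic (Y m) (Y' m) ∧ Diffeomorphic (Y n) (Y' n)) ∨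
      (Diffeomorphic (Y m) (Y n) ∧ Diffeomorphic (Y' m) (Y' n)) := by
  rw [diffeo_sum (hY.conn m hm) (hY.conn' n hn) (hY.conn' m hm) (hY.conn n hn)]
  constructor
  · rintro (⟨h, h'⟩ | ⟨h, h'⟩)
    · exact Or.inl ⟨h, diffeo_symm' h'⟩
    · exact Or.inr ⟨h, diffeo_symm' h'⟩
  · rintro (⟨h, h'⟩ | ⟨h, h'⟩)
    · exact Or.inl ⟨h, diffeo_symm' h'⟩
    · exact Or.inr ⟨h, diffeo_symm' h'⟩

/-- the set of the pairs with an exotic member on which the relation is decided -/
theorem on_exotic (hf : Q1On P) {Y Y' : α → Code} (hY : TwinsOn P D Y Y') :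
    DecidableOn (D ×ˢ D) (fun p : α × α =>
      ¬ Diffeomorphic (Y p.1) (Y' p.1) ∧
      Diffeomorphic (Y p.1) (Y p.2) ∧ Diffeomorphic (Y' p.1) (Y' p.2)) := by
  have h1 : DecidableOn (D ×ˢ D) (fun p : α × α => Diffeomorphic (Y p.1) (Y' p.1)) :=
    (on_pairs hf hY).subst Computable.fst fun x hx => hx.1
  have h2 : DecidableOn (D ×ˢ D) (fun p : α × α =>
      Diffeomorphic (sum (Y p.1) (Y' p.2)) (sum (Y' p.1) (Y p.2))) :=
    on_family hf
      (computable_sum.comp ((hY.comp.comp Computable.fst).pair (hY.comp'.comp Computable.snd)))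
      (computable_sum.comp ((hY.comp'.comp Computable.fst).pair (hY.comp.comp Computable.snd)))
      fun p hp => adm_sum hY hp.1 hp.2
  refine (h1.not_and h2).congr fun p hp => ?_
  rw [diffeo_iff hY hp.1 hp.2]
  constructor
  · rintro ⟨h, h3 | h3⟩
    · exact absurd h3.1 h
    · exact ⟨h, h3⟩
  · rintro ⟨h, h3⟩
    exact ⟨h, Or.inr h3⟩

/-- recognition of `Y n₀` without any promise on its homeomorphism type -/
theorem on_recognize (hf : Q1On P) {Y Y' : α → Code} (hY : TwinsOn P D Y Y') {n₀ : α}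
    (hn : n₀ ∈ D) (h0 : ¬ Diffeomorphic (Y n₀) (Y' n₀))
    (hc : ∀ n ∈ D, Diffeomorphic (Y n) (Y n₀) → Diffeomorphic (Y' n) (Y' n₀)) :
    DecidableOn D (fun n : α => Diffeomorphic (Y n) (Y n₀)) := by
  have h2 : DecidableOn D (fun n : α =>
      Diffeomorphic (sum (Y n) (Y' n₀)) (sum (Y' n) (Y n₀))) :=
    on_family hf (computable_sum.comp (hY.comp.pair (Computable.const _)))
      (computable_sum.comp (hY.comp'.pair (Computable.const _))) fun n h => adm_sum hY h hn
  refine h2.congr fun n h => ?_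
  rw [diffeo_iff hY h hn]
  constructor
  · rintro (h3 | h3)
    · exact absurd h3.2 h0
    · exact h3.1
  · intro h3
    exact Or.inr ⟨h3, hc n h h3⟩

end Pool.Agent.L5helper68.DH
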