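import Pool.Agent.L5helper68.DH.Gen

/-!
A check of the definitions: the 4-simplex is a connected 4-manifold, so there are families with the
properties `Pairs`.
-/

namespace Pool.Agent.L5helper68.DH

open Set

theorem faces_simplex : faces [[0, 1, 2, 3, 4]] = {s | s.Nonempty ∧ s ⊆ Finset.range 5} := by
  ext s
  constructor
  · rintro ⟨hs, l, hl, h⟩
    rw [List.mem_singleton] at hl
    subst hl
    refine ⟨hs, fun v hv => ?_⟩
    have := h v hv
    simp at this
    rw [Finset.mem_range]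
    omega
  · rintro ⟨hs, h⟩
    refine ⟨hs, _, List.mem_singleton.2 rfl, fun v hv => ?_⟩
    have := Finset.mem_range.1 (h hv)
    simp
    omega

theorem link_four : link {s | s.Nonempty ∧ s ⊆ Finset.range 5} 4 =
    {s | s.Nonempty ∧ s ⊆ Finset.range 4} := by
  ext s
  constructor
  · rintro ⟨hs, hv, h1, h2⟩
    refine ⟨hs, fun v hv' => ?_⟩
    have h3 := Finset.mem_range.1 (h2 (Finset.mem_insert_of_mem hv'))
    have h4 : v ≠ 4 := fun h => hv (h ▸ hv')
    rw [Finset.mem_range]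
    omega
  · rintro ⟨hs, h⟩
    refine ⟨hs, fun h4 => ?_, Finset.insert_nonempty _ _, fun v hv => ?_⟩
    · exact absurd (Finset.mem_range.1 (h h4)) (lt_irrefl 4)
    · rcases Finset.mem_insert.1 hv with rfl | hv
      · simp
      · have := Finset.mem_range.1 (h hv)
        rw [Finset.mem_range]
        omega

theorem plHomeo_refl (P : Set (ℕ → ℝ)) (h : ∃ T : Set (Set (ℕ → ℝ)), T.Finite ∧ (∀ t ∈ T, t.Finite) ∧
    P = ⋃ t ∈ T, convexHull ℝ t) : PLHomeo P P := by
  obtain ⟨T, h1, h2, h3⟩ := h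
  exact ⟨Homeomorph.refl P, ⟨T, h1, h2, h3, fun t _ => ⟨AffineMap.id ℝ _, fun x _ => rfl⟩⟩,
    ⟨T, h1, h2, h3, fun t _ => ⟨AffineMap.id ℝ _, fun x _ => rfl⟩⟩⟩

theorem poly_real {F : Set (Finset ℕ)} (hF : F.Finite) : ∃ T : Set (Set (ℕ → ℝ)), T.Finite ∧
    (∀ t ∈ T, t.Finite) ∧ real F = ⋃ t ∈ T, convexHull ℝ t := by
  refine ⟨(fun s : Finset ℕ => vert '' (s : Set ℕ)) '' F, hF.image _, ?_, ?_⟩
  · rintro _ ⟨s, _, rfl⟩
    exact (Finset.finite_toSet s).image _
  · rw [Set.biUnion_image]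
    rfl

theorem finite_sub (n : ℕ) : {s : Finset ℕ | s.Nonempty ∧ s ⊆ Finset.range n}.Finite :=
  (Finset.finite_toSet (Finset.powerset (Finset.range n))).subset fun s hs => by
    rw [Finset.mem_coe, Finset.mem_powerset]
    exact hs.2

theorem isBall_simplex : IsBall (real {s | s.Nonempty ∧ s ⊆ Finset.range 4}) :=
  plHomeo_refl _ (poly_real (finite_sub 4))

theorem isManifold_simplex : IsManifold (faces [[0, 1, 2, 3, 4]]) := by
  intro v hv
  right
  rw [faces_simplex] at hv ⊢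
  have hv5 : v < 5 := Finset.mem_range.1 (hv.2 (Finset.mem_singleton_self v))
  have hι := (Equiv.swap v 4).injective
  have key : ∀ s : Finset ℕ, s ⊆ Finset.range 5 →
      Finset.map ⟨Equiv.swap v 4, hι⟩ s ⊆ Finset.range 5 := by
    intro s hs u hu
    obtain ⟨w, hw, rfl⟩ := Finset.mem_map.1 hu
    have hw5 := Finset.mem_range.1 (hs hw)
    rw [Finset.mem_range]
    change Equiv.swap v 4 w < 5
    rcases eq_or_ne w v with rfl | h1
    · rw [Equiv.swap_apply_left]; omega
    · rcases eq_or_ne w 4 with rfl | h2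
      · rw [Equiv.swap_apply_right]; omega
      · rw [Equiv.swap_apply_of_ne_of_ne h1 h2]; omega
  have hF : {s : Finset ℕ | s.Nonempty ∧ s ⊆ Finset.range 5} =
      Finset.map ⟨Equiv.swap v 4, hι⟩ '' {s | s.Nonempty ∧ s ⊆ Finset.range 5} := by
    ext s
    constructor
    · rintro ⟨h1, h2⟩
      refine ⟨Finset.map ⟨Equiv.swap v 4, hι⟩ s, ⟨h1.map, key s h2⟩, ?_⟩
      ext u
      simp
    · rintro ⟨s, ⟨h1, h2⟩, rfl⟩
      exact ⟨h1.map, key s h2⟩
  have h4 : link {s : Finset ℕ | s.Nonempty ∧ s ⊆ Finset.range 5} v =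
      Finset.map ⟨Equiv.swap v 4, hι⟩ '' {s | s.Nonempty ∧ s ⊆ Finset.range 4} := by
    rw [← link_four, ← link_map (Equiv.swap v 4) hι, ← hF]
    simp
  rw [h4, real_map]
  exact plHomeo_image (relab _ hι) (unlab _) (fun x _ => unlab_relab _ hι x) isBall_simplex

theorem isConnected_simplex : IsConnected (real (faces [[0, 1, 2, 3, 4]])) := by
  have h : real (faces [[0, 1, 2, 3, 4]]) =
      convexHull ℝ (vert '' ((Finset.range 5 : Finset ℕ) : Set ℕ)) := by
    rw [faces_simplex]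
    apply Set.Subset.antisymm
    · refine Set.iUnion₂_subset fun s hs => convexHull_mono (Set.image_mono ?_)
      exact_mod_cast hs.2
    · have h5 : (Finset.range 5) ∈ {s : Finset ℕ | s.Nonempty ∧ s ⊆ Finset.range 5} :=
        ⟨⟨0, by simp⟩, subset_rfl⟩
      exact Set.subset_biUnion_of_mem (u := fun s : Finset ℕ => convexHull ℝ (vert '' (s : Set ℕ))) h5
  rw [h]
  refine (convex_convexHull ℝ _).isConnected ?_
  rw [convexHull_nonempty_iff]
  exact ⟨vert 0, 0, by simp, rfl⟩

theorem pairs_simplex : Pairs (fun _ : ℕ => [[0, 1, 2, 3, 4]]) (fun _ : ℕ => [[0, 1, 2, 3, 4]]) where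
  comp := Computable.const _
  comp' := Computable.const _
  mfd _ := isManifold_simplex
  mfd' _ := isManifold_simplex
  conn _ := isConnected_simplex
  conn' _ := isConnected_simplex
  homeo _ := ⟨Homeomorph.refl _⟩

end Pool.Agent.L5helper68.DH
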