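import Pool.Agent.L5helper68.DH.Defs
import Pool.Agent.L5helper68.DH.Lab
import Pool.Agent.L5helper68.DH.Bind

namespace Pool.Agent.L5helper68.DH

open Set

theorem inj_even : Function.Injective (fun v : ℕ => 2 * v) := fun a b h => by
  have h' : 2 * a = 2 * b := h
  omega

theorem inj_odd : Function.Injective (fun v : ℕ => 2 * v + 1) := fun a b h => by
  have h' : 2 * a + 1 = 2 * b + 1 := h
  omega

theorem real_rel (ι : ℕ → ℕ) (hι : Function.Injective ι) (c : Code) :
    real (faces (rel ι c)) = relab ι hι '' real (faces c) := by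
  rw [faces_rel ι hι, real_map]

theorem plHomeo_relab_image {P Q : Set (ℕ → ℝ)} (ι ι' : ℕ → ℕ) (hι : Function.Injective ι)
    (hι' : Function.Injective ι') :
    PLHomeo (relab ι hι '' P) (relab ι' hι' '' Q) ↔ PLHomeo P Q := by
  constructor
  · intro h
    have key : ∀ (κ : ℕ → ℕ) (hκ : Function.Injective κ) (S : Set (ℕ → ℝ)),
        unlab κ '' (relab κ hκ '' S) = S := by
      intro κ hκ S
      rw [Set.image_image]
      have : (fun x => unlab κ (relab κ hκ x)) = id := by
        funext x
        exact unlab_relab κ hκ x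
      rw [this, Set.image_id]
    have h1 := plHomeo_image (unlab ι) (relab ι hι) (by
      rintro x ⟨y, -, rfl⟩
      rw [unlab_relab]) h
    rw [key] at h1
    have h2 := plHomeo_image (unlab ι') (relab ι' hι') (by
      rintro x ⟨y, -, rfl⟩
      rw [unlab_relab]) (plHomeo_symm h1)
    rw [key] at h2
    exact plHomeo_symm h2
  · intro h
    have h1 := plHomeo_image (relab ι hι) (unlab ι) (fun x _ => unlab_relab ι hι x) h
    have h2 := plHomeo_image (relab ι' hι') (unlab ι') (fun x _ => unlab_relab ι' hι' x)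
      (plHomeo_symm h1)
    exact plHomeo_symm h2

/-- J10 (uses J1-J8): the PL classification of disjoint unions -/
theorem diffeo_sum {a b c d : Code} (ca : IsConnected (real (faces a)))
    (cb : IsConnected (real (faces b))) (cc : IsConnected (real (faces c)))
    (cd : IsConnected (real (faces d))) : Diffeomorphic (sum a b) (sum c d) ↔
      (Diffeomorphic a c ∧ Diffeomorphic b d) ∨ (Diffeomorphic a d ∧ Diffeomorphic b c) := by
  unfold Diffeomorphic
  rw [real_sum a b, real_sum c d]
  have hA := isClosed_real (rel (fun v => 2 * v) a)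
  have hB := isClosed_real (rel (fun v => 2 * v + 1) b)
  have hC := isClosed_real (rel (fun v => 2 * v) c)
  have hD := isClosed_real (rel (fun v => 2 * v + 1) d)
  have hAB := disjoint_real a b
  have hCD := disjoint_real c d
  rw [real_rel _ inj_even a] at hA hAB ⊢
  rw [real_rel _ inj_odd b] at hB hAB ⊢
  rw [real_rel _ inj_even c] at hC hCD ⊢
  rw [real_rel _ inj_odd d] at hD hCD ⊢
  have conn : ∀ (κ : ℕ → ℕ) (hκ : Function.Injective κ) (S : Set (ℕ → ℝ)), IsConnected S →
      IsConnected (relab κ hκ '' S) := fun κ hκ S hS =>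
    hS.image _ (relab κ hκ).continuous.continuousOn
  constructor
  · intro h
    rcases plHomeo_parts hA hB hC hD hAB hCD (conn _ _ _ ca) (conn _ _ _ cb) (conn _ _ _ cc)
      (conn _ _ _ cd) h with ⟨h1, h2⟩ | ⟨h1, h2⟩
    · exact Or.inl ⟨(plHomeo_relab_image _ _ _ _).1 h1, (plHomeo_relab_image _ _ _ _).1 h2⟩
    · exact Or.inr ⟨(plHomeo_relab_image _ _ _ _).1 h1, (plHomeo_relab_image _ _ _ _).1 h2⟩
  · rintro (⟨h1, h2⟩ | ⟨h1, h2⟩)
    · exact plHomeo_union hA hB hC hD hAB hCD ((plHomeo_relab_image _ _ _ _).2 h1)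
        ((plHomeo_relab_image _ _ _ _).2 h2)
    · have h := plHomeo_union hA hB hD hC hAB hCD.symm
        ((plHomeo_relab_image _ _ inj_even inj_odd).2 h1)
        ((plHomeo_relab_image _ _ inj_odd inj_even).2 h2)
      rwa [Set.union_comm (relab _ inj_odd '' _) (relab _ inj_even '' _)] at h

/-- J10 -/
theorem homeo_sum {a b c d : Code} (h : Homeomorphic a c) (h' : Homeomorphic b d) :
    Homeomorphic (sum a b) (sum c d) := by
  obtain ⟨e⟩ := h
  obtain ⟨e'⟩ := h'
  have im : ∀ (κ : ℕ → ℕ) (hκ : Function.Injective κ) (S : Set (ℕ → ℝ)),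
      Nonempty (S ≃ₜ (relab κ hκ '' S : Set (ℕ → ℝ))) := fun κ hκ S =>
    ⟨(Function.LeftInverse.isEmbedding (f := unlab κ) (g := relab κ hκ) (unlab_relab κ hκ)
      (unlab κ).continuous (relab κ hκ).continuous).homeomorphImage S⟩
  obtain ⟨ia⟩ := im _ inj_even (real (faces a))
  obtain ⟨ib⟩ := im _ inj_odd (real (faces b))
  obtain ⟨ic⟩ := im _ inj_even (real (faces c))
  obtain ⟨id'⟩ := im _ inj_odd (real (faces d))
  have hA := isClosed_real (rel (fun v => 2 * v) a)
  have hB := isClosed_real (rel (fun v => 2 * v + 1) b)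
  have hC := isClosed_real (rel (fun v => 2 * v) c)
  have hD := isClosed_real (rel (fun v => 2 * v + 1) d)
  have hAB := disjoint_real a b
  have hCD := disjoint_real c d
  unfold Homeomorphic
  rw [real_sum a b, real_sum c d]
  rw [real_rel _ inj_even a] at hA hAB ⊢
  rw [real_rel _ inj_odd b] at hB hAB ⊢
  rw [real_rel _ inj_even c] at hC hCD ⊢
  rw [real_rel _ inj_odd d] at hD hCD ⊢
  obtain ⟨f, -⟩ := homeo_union hA hB hC hD hAB hCD (ia.symm.trans (e.trans ic))
    (ib.symm.trans (e'.trans id'))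
  exact ⟨f⟩

end Pool.Agent.L5helper68.DH
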